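import Pool.Agent.Helper1.T1.Goals
import Pool.Agent.Helper18.ShghGen

/-!
PROJECT T1, packet BIG: a form of large degree through the points.
-/

set_option autoImplicit false

noncomputable section

namespace Pool.Agent.Helper69.T1.BIG

open Module Helper18.Shgh

/-- a permutation of the coordinates moves a nonzero coordinate to the place 2 -/
theorem mem_of_psi' {d M : ℕ} {P : Fin 3 → ℂ} (e : Equiv.Perm (Fin 3)) (hP : P (e 2) ≠ 0) {F : R3}
    (hF : F.IsHomogeneous d)
    (h : psi d M (fun j => P (e j)) (MvPolynomial.rename e.symm F) = 0) : F ∈ LI P ^ M := by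
  have h1 : MvPolynomial.rename e.symm F ∈ LI (fun j => P (e j)) ^ M :=
    mem_of_psi (P := fun j => P (e j)) hP (hF.rename_isHomogeneous) h
  have h2 : (LI (fun j => P (e j)) ^ M).map (MvPolynomial.rename e : R3 →ₐ[ℂ] R3) ≤ LI P ^ M := by
    rw [Ideal.map_pow]
    apply Ideal.pow_right_mono
    rw [LI, Ideal.map_span, Ideal.span_le]
    rintro _ ⟨g, ⟨hg1, hg2⟩, rfl⟩
    apply Ideal.subset_span
    refine ⟨hg1.rename_isHomogeneous, ?_⟩
    change MvPolynomial.eval P (MvPolynomial.rename e g) = 0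
    rw [MvPolynomial.eval_rename]
    exact hg2
  have h3 := h2 (Ideal.mem_map_of_mem (MvPolynomial.rename e : R3 →ₐ[ℂ] R3) h1)
  rw [MvPolynomial.rename_rename] at h3
  have h4 : (fun x => e (e.symm x)) = id := by
    funext x
    simp
  have h5 : (⇑e ∘ ⇑e.symm) = id := h4
  rw [h5, MvPolynomial.rename_id_apply] at h3
  exact h3

theorem t : Pool.Agent.Helper1.T1.S_BIG := by
  intro n δ μ P hP0 hlt
  have hex : ∀ i, ∃ e : Equiv.Perm (Fin 3), P i (e 2) ≠ 0 := by
    intro i
    have h1 : ∃ k, P i k ≠ 0 := by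
      by_contra hcon
      push Not at hcon
      exact hP0 i (funext hcon)
    obtain ⟨k, hk⟩ := h1
    refine ⟨Equiv.swap 2 k, ?_⟩
    rw [Equiv.swap_apply_left]
    exact hk
  choose e he using hex
  let K : Fin n → Submodule ℂ (HS δ) := fun i =>
    (Submodule.restrictScalars ℂ ((LI (P i)) ^ (μ i) : Ideal R3)).comap (HS δ).subtype
  have h1 := finrank_le_inf_iInf (Finset.univ : Finset (Fin n)) K
    (fun i => (μ i + 1).choose 2) (by
      intro i _ U hU
      have : FiniteDimensional ℂ (U ⊓ K i : Submodule ℂ (HS δ)) :=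
        Submodule.finiteDimensional_of_le inf_le_left
      have h2 := finrank_le_add (U ⊓ K i) U
        ((((psi δ (μ i) (fun j => P i (e i j))) ∘ₗ
          (MvPolynomial.rename (e i).symm : R3 →ₐ[ℂ] R3).toLinearMap).domRestrict (HS δ)) :
            HS δ →ₗ[ℂ] (Tri (μ i) → ℂ)) (by
          intro x hx h0
          refine Submodule.mem_inf.2 ⟨hx, ?_⟩
          exact mem_of_psi' (e i) (he i) x.2 h0)
      rw [finrank_fintype_fun_eq_card, card_Tri] at h2
      exact h2) ⊤
  rw [finrank_top] at h1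
  have h2 := (le_finrank_HS δ).trans h1
  have h3 : ∑ i : Fin n, (μ i + 1).choose 2 < (δ + 2).choose 2 := by
    have e1 : ∀ x : ℕ, 2 * (x + 1).choose 2 = x * (x + 1) := by
      intro x
      induction x with
      | zero => rfl
      | succ x ih =>
        rw [Nat.choose_succ_succ' (x + 1) 1, Nat.choose_one_right, mul_add, ih]
        ring
    have e2 : 2 * ∑ i : Fin n, (μ i + 1).choose 2 = ∑ i, μ i * (μ i + 1) := by
      rw [Finset.mul_sum]
      exact Finset.sum_congr rfl fun i _ => e1 (μ i)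
    have e3 := e1 (δ + 1)
    have e4 : δ + 1 + 1 = δ + 2 := rfl
    rw [e4] at e3
    omega
  have h4 : 0 < finrank ℂ (⊤ ⊓ ⨅ i ∈ Finset.univ, K i : Submodule ℂ (HS δ)) := by
    have h5 : (fun i => (μ i + 1).choose 2) = fun i : Fin n => (μ i + 1).choose 2 := rfl
    omega
  have h5 : (⊤ ⊓ ⨅ i ∈ Finset.univ, K i : Submodule ℂ (HS δ)) ≠ ⊥ := by
    intro h6
    rw [h6, finrank_bot] at h4
    exact lt_irrefl _ h4
  obtain ⟨x, hx, hx0⟩ := Submodule.exists_mem_ne_zero_of_ne_bot h5
  refine ⟨x, ?_, x.2, ?_⟩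
  · intro h6
    exact hx0 (Subtype.ext h6)
  · intro i
    have h6 := (Submodule.mem_inf.1 hx).2
    rw [Submodule.mem_iInf] at h6
    have h7 := h6 i
    rw [Submodule.mem_iInf] at h7
    exact h7 (Finset.mem_univ i)

end Pool.Agent.Helper69.T1.BIG
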